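import Pool.Agent.H786Z.NI.Main

open Pool.Agent.H786Z.NI

namespace Pool.Agent.Results.MP_64e6b8_an.RealCStarIndex

universe u v

/-- Numerical index of a nonzero real C*-algebra `A` (a closed real star subalgebra of a complex
C*-algebra `B`) and of each isometric predual of `A`: it is `1` when the involution is the identity
on `A`, and `0` otherwise. -/
theorem result (B : Type u) [NonUnitalCStarAlgebra B] (A : NonUnitalStarSubalgebra ℝ B)
    (hA : IsClosed (A : Set B)) (h0 : ∃ a ∈ A, a ≠ 0) :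
    ((∀ a ∈ A, star a = a) →
      numIndex A = 1 ∧
      ∀ (X : Type v) [NormedAddCommGroup X] [NormedSpace ℝ X] [CompleteSpace X],
        Nonempty (StrongDual ℝ X ≃ₗᵢ[ℝ] A) → numIndex X = 1) ∧
    ((∃ a ∈ A, star a ≠ a) →
      numIndex A = 0 ∧
      ∀ (X : Type v) [NormedAddCommGroup X] [NormedSpace ℝ X] [CompleteSpace X],
        Nonempty (StrongDual ℝ X ≃ₗᵢ[ℝ] A) → numIndex X = 0) := by
  let φ : B →⋆ₙₐ[ℂ] Unitization ℂ B := Unitization.inrNonUnitalStarAlgHom ℂ B
  have hφ : ∀ b, φ b = (b : Unitization ℂ B) := fun b => rfl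
  let S : NonUnitalStarSubalgebra ℝ (Unitization ℂ B) :=
    { carrier := φ '' (A : Set B)
      add_mem' := by
        rintro _ _ ⟨a, ha, rfl⟩ ⟨b, hb, rfl⟩
        exact ⟨a + b, add_mem ha hb, map_add φ a b⟩
      zero_mem' := ⟨0, zero_mem A, map_zero φ⟩
      mul_mem' := by
        rintro _ _ ⟨a, ha, rfl⟩ ⟨b, hb, rfl⟩
        exact ⟨a * b, mul_mem ha hb, map_mul φ a b⟩
      smul_mem' := by
        rintro c _ ⟨a, ha, rfl⟩
        exact ⟨c • a, SMulMemClass.smul_mem c ha, Unitization.inr_smul ℂ c a⟩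
      star_mem' := by
        rintro _ ⟨a, ha, rfl⟩
        exact ⟨star a, star_mem ha, map_star φ a⟩ }
  have hSmem : ∀ b, b ∈ S ↔ ∃ a ∈ A, φ a = b := fun b => Iff.rfl
  have hS : IsClosed (S : Set (Unitization ℂ B)) :=
    (Unitization.isometry_inr (𝕜 := ℂ) (A := B)).isClosedEmbedding.isClosedMap _ hA
  let ι : A →ₗᵢ[ℝ] Unitization ℂ B :=
    { toFun := fun a => φ a.1
      map_add' := fun a b => map_add φ a.1 b.1
      map_smul' := fun c a => Unitization.inr_smul ℂ c a.1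
      norm_map' := fun a => Unitization.norm_inr a.1 }
  have hι : ∀ b, b ∈ S ↔ ∃ z, ι z = b := fun b =>
    ⟨fun ⟨a, ha, h⟩ => ⟨⟨a, ha⟩, h⟩, fun ⟨a, h⟩ => ⟨a.1, a.2, h⟩⟩
  have hι' : ∀ {Z : Type v} [NormedAddCommGroup Z] [NormedSpace ℝ Z] (e : Z ≃ₗᵢ[ℝ] A) (b),
      b ∈ S ↔ ∃ z, (ι.comp e.toLinearIsometry) z = b := by
    intro Z _ _ e b
    rw [hι]
    constructor
    · rintro ⟨a, rfl⟩
      exact ⟨e.symm a, by simp⟩
    · rintro ⟨z, rfl⟩
      exact ⟨e z, rfl⟩
  obtain ⟨a0, ha0, ha0'⟩ := h0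
  have hnt : Nontrivial A := ⟨⟨⟨a0, ha0⟩, 0, fun h => ha0' (congrArg Subtype.val h)⟩⟩
  constructor
  · intro hsa
    have hsa' : ∀ b ∈ S, star b = b := by
      rintro _ ⟨a, ha, rfl⟩
      rw [← map_star, hsa a ha]
    refine ⟨index_one (radius_of_selfAdjoint ι hι hsa'), ?_⟩
    rintro X _ _ _ ⟨e⟩
    have : Nontrivial X := by
      by_contra hX
      rw [not_nontrivial_iff_subsingleton] at hX
      have h1 : e.symm ⟨a0, ha0⟩ = 0 := by
        ext x
        rw [Subsingleton.elim x 0, map_zero, map_zero]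
      apply ha0'
      have h2 := congrArg e h1
      rw [e.apply_symm_apply, map_zero] at h2
      exact congrArg Subtype.val h2
    exact index_one (index_one_predual
      (radius_of_selfAdjoint (ι.comp e.toLinearIsometry) (hι' e) hsa'))
  · rintro ⟨a, ha, hne⟩
    have hk : ∃ b ∈ S, star b ≠ b := by
      refine ⟨φ a, ⟨a, ha, rfl⟩, fun h => hne ?_⟩
      rw [← map_star] at h
      exact Unitization.inr_injective (R := ℂ) h
    refine ⟨index_zero_alg ι hι hk, ?_⟩
    rintro X _ _ _ ⟨e⟩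
    exact index_zero_predual hS (ι.comp e.toLinearIsometry) (hι' e) hk

end Pool.Agent.Results.MP_64e6b8_an.RealCStarIndex
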